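import Mathlib

set_option autoImplicit false

namespace Pool.Agent.H86.Sav

/-- `f` avoids the pattern `321` on the first `n` positions. -/
def A3 (f : ℕ → ℕ) (n : ℕ) : Prop :=
  ∀ i j k, i < j → j < k → k < n → f k < f j → f j < f i → False

/-- `f` avoids the pattern `1342` on the first `n` positions. -/
def A4 (f : ℕ → ℕ) (n : ℕ) : Prop :=
  ∀ i j k l, i < j → j < k → k < l → l < n → f i < f l → f l < f j → f j < f k → False

/-- pigeonhole -/
theorem card_le_of (h : ℕ → ℕ) (hinj : Function.Injective h) (a b : ℕ)
    (hab : ∀ i < a, h i < b) : a ≤ b := by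
  have := Finset.card_le_card_of_injOn h (s := Finset.range a) (t := Finset.range b)
    (fun i hi => by simpa using hab i (by simpa using hi)) (hinj.injOn)
  simpa using this

section

variable {f g : ℕ → ℕ} {n : ℕ}

theorem inj_of (hgf : ∀ i, g (f i) = i) {i j : ℕ} (h : f i = f j) : i = j := by
  rw [← hgf i, ← hgf j, h]

/-- the tail behind the maximum -/
theorem tail_eq (hgf : ∀ i, g (f i) = i) (hfg : ∀ i, f (g i) = i)
    (hlt : ∀ i, i < n → f i < n) (hlg : ∀ i, i < n → g i < n) {p : ℕ} (hp : p < n)
    (hfp : f p = n - 1)
    (hup : ∀ i j, i < p → p < j → j < n → f i < f j)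
    (hinc : ∀ j k, p < j → j < k → k < n → f j < f k) :
    ∀ d j, j + d + 1 = n → p < j → f j = j - 1 := by
  intro d
  induction d with
  | zero =>
    intro j hj hpj
    have h1 : f j < n := hlt j (by omega)
    have h2 : f j ≠ n - 1 := fun h => by
      have := inj_of hgf (h.trans hfp.symm)
      omega
    have h3 : g (n - 2) < n := hlg _ (by omega)
    have h4 := hfg (n - 2)
    rcases lt_trichotomy (g (n - 2)) p with h | h | h
    · have := hup _ j h hpj (by omega)
      omega
    · rw [h, hfp] at h4
      omega
    · rcases lt_or_eq_of_le (show g (n - 2) ≤ j by omega) with h5 | h5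
      · have := hinc _ _ h h5 (by omega)
        omega
      · rw [h5] at h4
        omega
  | succ d ih =>
    intro j hj hpj
    have h0 := ih (j + 1) (by omega) (by omega)
    have h1 := hinc j (j + 1) hpj (by omega) (by omega)
    have h3 : g (j - 1) < n := hlg _ (by omega)
    have h4 := hfg (j - 1)
    rcases lt_trichotomy (g (j - 1)) p with h | h | h
    · have := hup _ j h hpj (by omega)
      omega
    · rw [h, hfp] at h4
      omega
    · rcases lt_trichotomy (g (j - 1)) j with h5 | h5 | h5
      · have := hinc _ _ h h5 (by omega)
        omega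
      · rw [h5] at h4
        omega
      · rcases lt_or_eq_of_le (show j + 1 ≤ g (j - 1) by omega) with h6 | h6
        · have := hinc (j + 1) _ (by omega) h6 h3
          omega
        · rw [← h6] at h4
          omega

/-- the decomposable case -/
theorem case_dec (hgf : ∀ i, g (f i) = i) (hfg : ∀ i, f (g i) = i)
    (hlt : ∀ i, i < n → f i < n) (hlg : ∀ i, i < n → g i < n)
    (h3 : A3 f n) (h4 : A4 f n) (h4' : A4 (fun i => f (f i)) n)
    {m : ℕ} (hm : 1 ≤ m) (hmn : m < n) (hblock : ∀ i < m, f i < m) :
    f (n - 1) = n - 1 ∨ (2 ≤ n ∧ f (n - 1) = n - 2 ∧ f (n - 2) = n - 1) := by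
  -- positions at least `m` have values at least `m`
  have hge : ∀ i, m ≤ i → m ≤ f i := by
    intro i hi
    by_contra hcon
    push Not at hcon
    have himg : (Finset.range m).image f = Finset.range m := by
      apply Finset.eq_of_subset_of_card_le
      · intro x hx
        obtain ⟨y, hy, rfl⟩ := Finset.mem_image.1 hx
        exact Finset.mem_range.2 (hblock y (Finset.mem_range.1 hy))
      · rw [Finset.card_image_of_injective _ (fun x y hxy => inj_of hgf hxy)]
    have hmem : f i ∈ (Finset.range m).image f := by
      rw [himg]
      exact Finset.mem_range.2 hcon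
    obtain ⟨y, hy, hyi⟩ := Finset.mem_image.1 hmem
    have h1 := inj_of hgf hyi
    have h2 := Finset.mem_range.1 hy
    omega
  obtain ⟨p, hp⟩ : ∃ p, g (n - 1) = p := ⟨_, rfl⟩
  have hpn : p < n := by rw [← hp]; exact hlg _ (by omega)
  have hfp : f p = n - 1 := by rw [← hp]; exact hfg _
  have hmp : m ≤ p := by
    by_contra hcon
    have := hblock p (by omega)
    omega
  have hmax : ∀ i, i < n → i ≠ p → f i < n - 1 := by
    intro i hi hip
    have h1 := hlt i hi
    have h2 : f i ≠ n - 1 := fun h => hip (inj_of hgf (h.trans hfp.symm))
    omega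
  have hne : ∀ i j, i ≠ j → f i ≠ f j := fun i j hij h => hij (inj_of hgf h)
  have h0 : f 0 < m := hblock 0 (by omega)
  have hinc : ∀ j k, p < j → j < k → k < n → f j < f k := by
    intro j k hj hk hkn
    rcases lt_trichotomy (f j) (f k) with h | h | h
    · exact h
    · exact absurd h (hne j k (by omega))
    · exact (h3 p j k hj hk hkn h (by rw [hfp]; exact hmax j (by omega) (by omega))).elim
  have hup : ∀ i j, i < p → p < j → j < n → f i < f j := by
    intro i j hi hj hjn
    by_cases him : i < m
    · have := hblock i him
      have := hge j (by omega)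
      omega
    · rcases lt_trichotomy (f i) (f j) with h | h | h
      · exact h
      · exact absurd h (hne i j (by omega))
      · exfalso
        have h5 : 0 < i := by omega
        have h6 := hge j (by omega)
        refine h4 0 i p j h5 hi hj hjn (by omega) h ?_
        rw [hfp]
        exact hmax i (by omega) (by omega)
  have htail := tail_eq hgf hfg hlt hlg hpn hfp hup hinc
  by_cases c1 : p = n - 1
  · left
    rw [← c1]
    rw [hfp, c1]
  · by_cases c2 : p = n - 2
    · right
      refine ⟨by omega, ?_, ?_⟩
      · have := htail 0 (n - 1) (by omega) (by omega)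
        omega
      · rw [← c2, hfp]
    · exfalso
      have e1 : f (p + 1) = p := by
        have := htail (n - (p + 2)) (p + 1) (by omega) (by omega)
        omega
      have e2 : f (p + 2) = p + 1 := by
        have := htail (n - (p + 3)) (p + 2) (by omega) (by omega)
        omega
      have e3 : f (n - 1) = n - 2 := by
        have := htail 0 (n - 1) (by omega) (by omega)
        omega
      have h00 : f (f 0) < m := hblock _ h0
      refine h4' 0 p (p + 1) (p + 2) (by omega) (by omega) (by omega) (by omega) ?_ ?_ ?_
      · show f (f 0) < f (f (p + 2))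
        rw [e2, e1]; omega
      · show f (f (p + 2)) < f (f p)
        rw [e2, e1, hfp, e3]; omega
      · show f (f p) < f (f (p + 1))
        rw [hfp, e3, e1, hfp]; omega

end

end Pool.Agent.H86.Sav
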