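import Pool.Agent.H86.Sav.Indec

set_option autoImplicit false

namespace Pool.Agent.H86.Sav

/-- permutations of `ℕ` moving only the first `n` points and strongly avoiding both patterns -/
def Good (e : Equiv.Perm ℕ) (n : ℕ) : Prop :=
  (∀ i, n ≤ i → e i = i) ∧ A3 (fun i => e i) n ∧ A4 (fun i => e i) n ∧
    A3 (fun i => e (e i)) n ∧ A4 (fun i => e (e i)) n

/-- rotation of the first `n` numbers -/
def rotf (n k i : ℕ) : ℕ := if i < n then (if i + k < n then i + k else i + k - n) else i

theorem rotf_inv {n k : ℕ} (h : k ≤ n) (i : ℕ) : rotf n (n - k) (rotf n k i) = i := by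
  unfold rotf
  split_ifs <;> omega

theorem rotf_inv' {n k : ℕ} (h : k ≤ n) (i : ℕ) : rotf n k (rotf n (n - k) i) = i := by
  unfold rotf
  split_ifs <;> omega

/-- rotation as a permutation -/
def rot (n k : ℕ) : Equiv.Perm ℕ :=
  if h : k ≤ n then ⟨rotf n k, rotf n (n - k), rotf_inv h, rotf_inv' h⟩ else 1

theorem rot_apply {n k : ℕ} (h : k ≤ n) (i : ℕ) : rot n k i = rotf n k i := by
  unfold rot
  rw [dif_pos h]
  rfl

theorem A3.congr {f f' : ℕ → ℕ} {n : ℕ} (h : ∀ i < n, f' i = f i) (hf : A3 f n) : A3 f' n := by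
  intro i j k hij hjk hk h1 h2
  rw [h k hk, h j (by omega)] at h1
  rw [h j (by omega), h i (by omega)] at h2
  exact hf i j k hij hjk hk h1 h2

theorem A4.congr {f f' : ℕ → ℕ} {n : ℕ} (h : ∀ i < n, f' i = f i) (hf : A4 f n) : A4 f' n := by
  intro i j k l hij hjk hkl hl h1 h2 h3
  rw [h i (by omega), h l (by omega)] at h1
  rw [h l (by omega), h j (by omega)] at h2
  rw [h j (by omega), h k (by omega)] at h3
  exact hf i j k l hij hjk hkl hl h1 h2 h3

theorem A3.mono {f : ℕ → ℕ} {n m : ℕ} (h : n ≤ m) (hf : A3 f m) : A3 f n :=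
  fun i j k hij hjk hk h1 h2 => hf i j k hij hjk (by omega) h1 h2

theorem A4.mono {f : ℕ → ℕ} {n m : ℕ} (h : n ≤ m) (hf : A4 f m) : A4 f n :=
  fun i j k l hij hjk hkl hl h1 h2 h3 => hf i j k l hij hjk hkl (by omega) h1 h2 h3

theorem A3_rotf {n k : ℕ} (_h : k ≤ n) : A3 (rotf n k) n := by
  intro i j l hij hjl hl h1 h2
  unfold rotf at h1 h2
  split_ifs at h1 h2 <;> omega

theorem A4_rotf {n k : ℕ} (_h : k ≤ n) : A4 (rotf n k) n := by
  intro i j l m hij hjl hlm hm h1 h2 h3
  unfold rotf at h1 h2 h3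
  split_ifs at h1 h2 h3 <;> omega

theorem rotf_sq {n k : ℕ} (h : k ≤ n) (i : ℕ) (_hi : i < n) :
    rotf n k (rotf n k i) = rotf n (if 2 * k ≤ n then 2 * k else 2 * k - n) i := by
  unfold rotf
  split_ifs <;> omega

theorem good_rot {n k : ℕ} (h : k ≤ n) : Good (rot n k) n := by
  have h1 : ∀ i, rot n k i = rotf n k i := rot_apply h
  have h2 : ∀ i < n, rot n k (rot n k i) = rotf n (if 2 * k ≤ n then 2 * k else 2 * k - n) i := by
    intro i hi
    rw [h1, h1]
    exact rotf_sq h i hi
  have h3 : (if 2 * k ≤ n then 2 * k else 2 * k - n) ≤ n := by split_ifs <;> omega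
  refine ⟨?_, ?_, ?_, ?_, ?_⟩
  · intro i hi
    rw [h1]
    unfold rotf
    rw [if_neg (by omega)]
  · exact A3.congr (fun i _ => h1 i) (A3_rotf h)
  · exact A4.congr (fun i _ => h1 i) (A4_rotf h)
  · exact A3.congr h2 (A3_rotf h3)
  · exact A4.congr h2 (A4_rotf h3)

theorem lift1_3 {f : ℕ → ℕ} {m : ℕ} (hlt : ∀ i < m, f i < m) (hm : f m = m) (h : A3 f m) :
    A3 f (m + 1) := by
  intro i j k hij hjk hk h1 h2
  by_cases hkm : k = m
  · rw [hkm, hm] at h1
    have := hlt j (by omega)
    omega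
  · exact h i j k hij hjk (by omega) h1 h2

theorem lift1_4 {f : ℕ → ℕ} {m : ℕ} (hlt : ∀ i < m, f i < m) (hm : f m = m) (h : A4 f m) :
    A4 f (m + 1) := by
  intro i j k l hij hjk hkl hl h1 h2 h3
  by_cases hlm : l = m
  · rw [hlm, hm] at h2
    have := hlt j (by omega)
    omega
  · exact h i j k l hij hjk hkl (by omega) h1 h2 h3

theorem lift2_3 {f f' : ℕ → ℕ} {m : ℕ} (hlt : ∀ i < m, f i < m) (hff : ∀ i < m, f' i = f i)
    (hm : (f' m = m + 1 ∧ f' (m + 1) = m) ∨ (f' m = m ∧ f' (m + 1) = m + 1)) (h : A3 f m) :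
    A3 f' (m + 2) := by
  intro i j k hij hjk hk h1 h2
  by_cases hkm : k < m
  · rw [hff k hkm, hff j (by omega)] at h1
    rw [hff j (by omega), hff i (by omega)] at h2
    exact h i j k hij hjk hkm h1 h2
  · have hi : f' i < m := by rw [hff i (by omega)]; exact hlt i (by omega)
    rcases (show k = m ∨ k = m + 1 by omega) with hk' | hk'
    · rw [hk'] at h1; omega
    · rw [hk'] at h1
      omega

theorem lift2_4 {f f' : ℕ → ℕ} {m : ℕ} (hlt : ∀ i < m, f i < m) (hff : ∀ i < m, f' i = f i)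
    (hm : (f' m = m + 1 ∧ f' (m + 1) = m) ∨ (f' m = m ∧ f' (m + 1) = m + 1)) (h : A4 f m) :
    A4 f' (m + 2) := by
  intro i j k l hij hjk hkl hl h1 h2 h3
  by_cases hlm : l < m
  · rw [hff i (by omega), hff l (by omega)] at h1
    rw [hff l (by omega), hff j (by omega)] at h2
    rw [hff j (by omega), hff k (by omega)] at h3
    exact h i j k l hij hjk hkl hlm h1 h2 h3
  · have hj : f' j < m := by rw [hff j (by omega)]; exact hlt j (by omega)
    rcases (show l = m ∨ l = m + 1 by omega) with hk' | hk'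
    · rw [hk'] at h1 h2; omega
    · rw [hk'] at h1 h2
      omega

theorem perm_lt {e : Equiv.Perm ℕ} {n : ℕ} (h : ∀ i, n ≤ i → e i = i) (i : ℕ) (hi : i < n) :
    e i < n := by
  by_contra hcon
  have h1 := h (e i) (by omega)
  have h2 := e.injective h1
  omega

theorem perm_symm {e : Equiv.Perm ℕ} {n : ℕ} (h : ∀ i, n ≤ i → e i = i) (i : ℕ) (hi : n ≤ i) :
    e.symm i = i := by
  rw [Equiv.symm_apply_eq]
  exact (h i hi).symm

theorem good_succ {e : Equiv.Perm ℕ} {n : ℕ} (h : Good e n) : Good e (n + 1) := by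
  obtain ⟨h0, h1, h2, h3, h4⟩ := h
  have hlt := perm_lt h0
  have hlt2 : ∀ i < n, e (e i) < n := fun i hi => hlt _ (hlt i hi)
  have hn := h0 n le_rfl
  have hn2 : e (e n) = n := by rw [hn, hn]
  exact ⟨fun i hi => h0 i (by omega), lift1_3 hlt hn h1, lift1_4 hlt hn h2,
    lift1_3 hlt2 hn2 h3, lift1_4 hlt2 hn2 h4⟩

theorem good_swap {e : Equiv.Perm ℕ} {n : ℕ} (h : Good e n) :
    Good (e * Equiv.swap n (n + 1)) (n + 2) := by
  obtain ⟨h0, h1, h2, h3, h4⟩ := h
  have hlt := perm_lt h0
  have hlt2 : ∀ i < n, e (e i) < n := fun i hi => hlt _ (hlt i hi)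
  have hs : ∀ i < n, (e * Equiv.swap n (n + 1)) i = e i := by
    intro i hi
    rw [Equiv.Perm.mul_apply, Equiv.swap_apply_of_ne_of_ne (by omega) (by omega)]
  have hn : (e * Equiv.swap n (n + 1)) n = n + 1 := by
    rw [Equiv.Perm.mul_apply, Equiv.swap_apply_left, h0 _ (by omega)]
  have hn1 : (e * Equiv.swap n (n + 1)) (n + 1) = n := by
    rw [Equiv.Perm.mul_apply, Equiv.swap_apply_right, h0 _ (by omega)]
  have hs2 : ∀ i < n, (e * Equiv.swap n (n + 1)) ((e * Equiv.swap n (n + 1)) i) = e (e i) := by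
    intro i hi
    rw [hs i hi, hs _ (hlt i hi)]
  have hn2 : (e * Equiv.swap n (n + 1)) ((e * Equiv.swap n (n + 1)) n) = n := by
    rw [hn, hn1]
  have hn3 : (e * Equiv.swap n (n + 1)) ((e * Equiv.swap n (n + 1)) (n + 1)) = n + 1 := by
    rw [hn1, hn]
  refine ⟨?_, ?_, ?_, ?_, ?_⟩
  · intro i hi
    rw [Equiv.Perm.mul_apply, Equiv.swap_apply_of_ne_of_ne (by omega) (by omega), h0 _ (by omega)]
  · exact lift2_3 hlt hs (Or.inl ⟨hn, hn1⟩) h1
  · exact lift2_4 hlt hs (Or.inl ⟨hn, hn1⟩) h2
  · exact lift2_3 hlt2 hs2 (Or.inr ⟨hn2, hn3⟩) h3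
  · exact lift2_4 hlt2 hs2 (Or.inr ⟨hn2, hn3⟩) h4

theorem good_unswap {e : Equiv.Perm ℕ} {n : ℕ} (h : Good e (n + 2))
    (ha : e (n + 1) = n) (hb : e n = n + 1) : Good (e * Equiv.swap n (n + 1)) n := by
  obtain ⟨h0, h1, h2, h3, h4⟩ := h
  have hs : ∀ i < n, (e * Equiv.swap n (n + 1)) i = e i := by
    intro i hi
    rw [Equiv.Perm.mul_apply, Equiv.swap_apply_of_ne_of_ne (by omega) (by omega)]
  have hfix : ∀ i, n ≤ i → (e * Equiv.swap n (n + 1)) i = i := by
    intro i hi
    rw [Equiv.Perm.mul_apply]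
    rcases (show i = n ∨ i = n + 1 ∨ n + 2 ≤ i by omega) with h | h | h
    · rw [h, Equiv.swap_apply_left, ha]
    · rw [h, Equiv.swap_apply_right, hb]
    · rw [Equiv.swap_apply_of_ne_of_ne (by omega) (by omega), h0 _ h]
  have hlt := perm_lt hfix
  have hlt' : ∀ i < n, e i < n := by
    intro i hi
    rw [← hs i hi]
    exact hlt i hi
  have hs2 : ∀ i < n, (e * Equiv.swap n (n + 1)) ((e * Equiv.swap n (n + 1)) i) = e (e i) := by
    intro i hi
    rw [hs i hi, hs _ (hlt' i hi)]
  exact ⟨hfix, A3.congr hs (A3.mono (by omega) h1), A4.congr hs (A4.mono (by omega) h2),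
    A3.congr hs2 (A3.mono (by omega) h3), A4.congr hs2 (A4.mono (by omega) h4)⟩

/-- the structure of good permutations -/
theorem good_cases {e : Equiv.Perm ℕ} {n : ℕ} (hn : 2 ≤ n) (h : Good e n) :
    e (n - 1) = n - 1 ∨ (e (n - 1) = n - 2 ∧ e (n - 2) = n - 1) ∨
      ∃ k, 1 ≤ k ∧ k < n ∧ e = rot n k := by
  obtain ⟨h0, h1, h2, h3, h4⟩ := h
  have hlt := perm_lt h0
  have hlg := perm_lt (perm_symm h0)
  have hgf : ∀ i, e.symm (e i) = i := e.symm_apply_apply
  have hfg : ∀ i, e (e.symm i) = i := e.apply_symm_apply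
  by_cases hb : ∃ m, 1 ≤ m ∧ m < n ∧ ∀ i < m, e i < m
  · obtain ⟨m, hm1, hmn, hm⟩ := hb
    rcases case_dec (f := fun i => e i) (g := fun i => e.symm i) hgf hfg hlt hlg h1 h2 h4 hm1 hmn hm
      with h | h
    · exact Or.inl h
    · exact Or.inr (Or.inl h.2)
  · obtain ⟨k, hk1, hkn, hk⟩ := case_indec (f := fun i => e i) (g := fun i => e.symm i) hn hgf hfg
      hlt hlg h1 h2 h3 h4 (by
        intro m hm1 hmn
        by_contra hcon
        push Not at hcon
        exact hb ⟨m, hm1, hmn, hcon⟩)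
    refine Or.inr (Or.inr ⟨k, hk1, hkn, ?_⟩)
    ext i
    rw [rot_apply (by omega)]
    unfold rotf
    split_ifs with h5 h6
    · rw [hk i h5, if_pos h6]
    · rw [hk i h5, if_neg h6]
    · exact h0 i (by omega)

open Classical in
/-- the finite sets of good permutations -/
noncomputable def S : ℕ → Finset (Equiv.Perm ℕ)
  | 0 => {1}
  | 1 => {1}
  | 2 => {1, Equiv.swap 0 1}
  | (n + 3) => S (n + 2) ∪ (S (n + 1)).image (fun e => e * Equiv.swap (n + 1) (n + 2)) ∪
      (Finset.range (n + 2)).image (fun j => rot (n + 3) (j + 1))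

theorem good_one (n : ℕ) : Good 1 n := by
  refine ⟨fun i _ => rfl, ?_, ?_, ?_, ?_⟩
  · intro i j k hij hjk hk h1 h2
    simp only [Equiv.Perm.one_apply] at h1 h2
    omega
  · intro i j k l hij hjk hkl hl h1 h2 h3
    simp only [Equiv.Perm.one_apply] at h1 h2 h3
    omega
  · intro i j k hij hjk hk h1 h2
    simp only [Equiv.Perm.one_apply] at h1 h2
    omega
  · intro i j k l hij hjk hkl hl h1 h2 h3
    simp only [Equiv.Perm.one_apply] at h1 h2 h3
    omega

theorem mem_S_zero (e : Equiv.Perm ℕ) : e ∈ S 0 ↔ Good e 0 := by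
  constructor
  · intro h
    simp only [S, Finset.mem_singleton] at h
    rw [h]
    exact good_one 0
  · intro h
    simp only [S, Finset.mem_singleton]
    ext i
    exact h.1 i (by omega)

theorem mem_S_one (e : Equiv.Perm ℕ) : e ∈ S 1 ↔ Good e 1 := by
  constructor
  · intro h
    simp only [S, Finset.mem_singleton] at h
    rw [h]
    exact good_one 1
  · intro h
    simp only [S, Finset.mem_singleton]
    ext i
    rcases Nat.eq_zero_or_pos i with hi | hi
    · rw [hi]
      have := perm_lt h.1 0 (by omega)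
      simp only [Equiv.Perm.one_apply]
      omega
    · exact h.1 i hi

theorem mem_S_two (e : Equiv.Perm ℕ) : e ∈ S 2 ↔ Good e 2 := by
  constructor
  · intro h
    simp only [S, Finset.mem_insert, Finset.mem_singleton] at h
    rcases h with h | h
    · rw [h]
      exact good_one 2
    · have := good_swap (good_one 0)
      rw [one_mul] at this
      rw [h]
      exact this
  · intro h
    simp only [S, Finset.mem_insert, Finset.mem_singleton]
    rcases good_cases le_rfl h with h1 | h1 | ⟨k, hk1, hk2, hk⟩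
    · left
      ext i
      simp only [Equiv.Perm.one_apply]
      rcases (show i = 0 ∨ i = 1 ∨ 2 ≤ i by omega) with hi | hi | hi
      · rw [hi]
        have h2 := perm_lt h.1 0 (by omega)
        have h3 : e 0 ≠ e 1 := fun h4 => by
          have := e.injective h4
          omega
        change e 1 = 1 at h1
        omega
      · rw [hi]
        exact h1
      · exact h.1 i hi
    · right
      ext i
      rcases (show i = 0 ∨ i = 1 ∨ 2 ≤ i by omega) with hi | hi | hi
      · rw [hi, Equiv.swap_apply_left]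
        exact h1.2
      · rw [hi, Equiv.swap_apply_right]
        exact h1.1
      · rw [Equiv.swap_apply_of_ne_of_ne (by omega) (by omega)]
        exact h.1 i hi
    · right
      have : k = 1 := by omega
      rw [hk, this]
      ext i
      rw [rot_apply (by omega)]
      unfold rotf
      rcases (show i = 0 ∨ i = 1 ∨ 2 ≤ i by omega) with hi | hi | hi
      · rw [hi, Equiv.swap_apply_left]
        rfl
      · rw [hi, Equiv.swap_apply_right]
        rfl
      · rw [Equiv.swap_apply_of_ne_of_ne (by omega) (by omega), if_neg (by omega)]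

theorem mem_S_step (n : ℕ) (ih1 : ∀ e, e ∈ S (n + 1) ↔ Good e (n + 1))
    (ih2 : ∀ e, e ∈ S (n + 2) ↔ Good e (n + 2)) (e : Equiv.Perm ℕ) :
    e ∈ S (n + 3) ↔ Good e (n + 3) := by
  constructor
  · intro h
    simp only [S, Finset.mem_union, Finset.mem_image, Finset.mem_range] at h
    rcases h with (h | ⟨e', he', rfl⟩) | ⟨j, hj, rfl⟩
    · exact good_succ ((ih2 e).1 h)
    · exact good_swap ((ih1 e').1 he')
    · exact good_rot (by omega)
  · intro h
    simp only [S, Finset.mem_union, Finset.mem_image, Finset.mem_range]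
    rcases good_cases (by omega) h with h1 | h1 | ⟨k, hk1, hk2, hk⟩
    · left; left
      rw [ih2]
      obtain ⟨h0, h2, h3, h4, h5⟩ := h
      refine ⟨?_, A3.mono (by omega) h2, A4.mono (by omega) h3, A3.mono (by omega) h4,
        A4.mono (by omega) h5⟩
      intro i hi
      rcases (show i = n + 2 ∨ n + 3 ≤ i by omega) with h | h
      · rw [h]
        exact h1
      · exact h0 i h
    · left; right
      refine ⟨e * Equiv.swap (n + 1) (n + 2), ?_, ?_⟩
      · rw [ih1]
        exact good_unswap h h1.1 h1.2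
      · rw [mul_assoc, Equiv.swap_mul_self, mul_one]
    · right
      refine ⟨k - 1, by omega, ?_⟩
      rw [hk, show k - 1 + 1 = k by omega]

theorem mem_S : ∀ (n : ℕ) (e : Equiv.Perm ℕ), e ∈ S n ↔ Good e n := by
  have h : ∀ n, (∀ e, e ∈ S n ↔ Good e n) ∧ (∀ e, e ∈ S (n + 1) ↔ Good e (n + 1)) ∧
      (∀ e, e ∈ S (n + 2) ↔ Good e (n + 2)) := by
    intro n
    induction n with
    | zero => exact ⟨mem_S_zero, mem_S_one, mem_S_two⟩
    | succ n ih => exact ⟨ih.2.1, ih.2.2, mem_S_step n ih.2.1 ih.2.2⟩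
  exact fun n => (h n).1

theorem card_S_step (n : ℕ) : (S (n + 3)).card = (S (n + 2)).card + (S (n + 1)).card + (n + 2) := by
  classical
  have hdef : S (n + 3) = S (n + 2) ∪ (S (n + 1)).image (fun e => e * Equiv.swap (n + 1) (n + 2)) ∪
      (Finset.range (n + 2)).image (fun j => rot (n + 3) (j + 1)) := by
    rw [S]
  have hA : ∀ e ∈ S (n + 2), e (n + 2) = n + 2 := by
    intro e he
    exact ((mem_S _ _).1 he).1 _ le_rfl
  have hB : ∀ e ∈ (S (n + 1)).image (fun e => e * Equiv.swap (n + 1) (n + 2)),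
      e (n + 2) = n + 1 ∧ e (n + 1) = n + 2 := by
    intro e he
    obtain ⟨e', he', rfl⟩ := Finset.mem_image.1 he
    have h0 := ((mem_S _ _).1 he').1
    refine ⟨?_, ?_⟩
    · rw [Equiv.Perm.mul_apply, Equiv.swap_apply_right, h0 _ (by omega)]
    · rw [Equiv.Perm.mul_apply, Equiv.swap_apply_left, h0 _ (by omega)]
  have hC : ∀ e ∈ (Finset.range (n + 2)).image (fun j => rot (n + 3) (j + 1)),
      e (n + 2) ≠ n + 2 ∧ ¬ (e (n + 2) = n + 1 ∧ e (n + 1) = n + 2) := by
    intro e he
    obtain ⟨j, hj, rfl⟩ := Finset.mem_image.1 he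
    have hj' := Finset.mem_range.1 hj
    have e1 : rot (n + 3) (j + 1) (n + 2) = j := by
      rw [rot_apply (by omega)]
      unfold rotf
      split_ifs <;> omega
    have e2 : j = n + 1 → rot (n + 3) (j + 1) (n + 1) = n := by
      intro h
      rw [rot_apply (by omega)]
      unfold rotf
      split_ifs <;> omega
    refine ⟨?_, ?_⟩
    · show rot (n + 3) (j + 1) (n + 2) ≠ n + 2
      omega
    · rintro ⟨h1, h2⟩
      change rot (n + 3) (j + 1) (n + 2) = n + 1 at h1
      change rot (n + 3) (j + 1) (n + 1) = n + 2 at h2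
      have := e2 (by omega)
      omega
  rw [hdef, Finset.card_union_of_disjoint, Finset.card_union_of_disjoint,
    Finset.card_image_of_injective, Finset.card_image_of_injOn, Finset.card_range]
  · intro x hx y hy hxy
    have hx' : x < n + 2 := by simpa using hx
    have hy' : y < n + 2 := by simpa using hy
    have h1 : rot (n + 3) (x + 1) 0 = rot (n + 3) (y + 1) 0 := by
      have : rot (n + 3) (x + 1) = rot (n + 3) (y + 1) := hxy
      rw [this]
    rw [rot_apply (by omega), rot_apply (by omega)] at h1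
    unfold rotf at h1
    split_ifs at h1 <;> omega
  · intro x y hxy
    exact mul_right_cancel hxy
  · rw [Finset.disjoint_left]
    intro e he he2
    have := hA e he
    have := (hB e he2).1
    omega
  · rw [Finset.disjoint_left]
    intro e he he2
    rcases Finset.mem_union.1 he with h | h
    · exact (hC e he2).1 (hA e h)
    · exact (hC e he2).2 (hB e h)

theorem card_S_two : (S 2).card = 2 := by
  classical
  have h : (1 : Equiv.Perm ℕ) ≠ Equiv.swap 0 1 := by
    intro h
    have := congrArg (fun e : Equiv.Perm ℕ => e 0) h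
    simp at this
  simp only [S]
  rw [Finset.card_insert_of_notMem (by simpa using h), Finset.card_singleton]

theorem card_S (n : ℕ) : (S (n + 1)).card + (n + 1) + 2 = 2 * Nat.fib (n + 3) := by
  have h : ∀ n, (S (n + 1)).card + (n + 1) + 2 = 2 * Nat.fib (n + 3) ∧
      (S (n + 2)).card + (n + 2) + 2 = 2 * Nat.fib (n + 4) := by
    intro n
    induction n with
    | zero =>
      refine ⟨?_, ?_⟩
      · have : (S (0 + 1)).card = 1 := by simp [S]
        rw [this]
        rfl
      · have := card_S_two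
        rw [show (0 : ℕ) + 2 = 2 from rfl, this]
        rfl
    | succ n ih =>
      refine ⟨ih.2, ?_⟩
      have h1 := card_S_step n
      have h2 := Nat.fib_add_two (n := n + 3)
      rw [show n + 1 + 2 = n + 3 by ring, h1, show n + 1 + 4 = n + 3 + 2 by ring, h2]
      have h3 := ih.1
      have h4 := ih.2
      rw [show n + 3 + 1 = n + 4 by ring]
      omega
  exact (h n).1

end Pool.Agent.H86.Sav
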