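import Pool.Agent.H86.Sav.Core

set_option autoImplicit false

namespace Pool.Agent.H86.Sav

section

variable {f g : ℕ → ℕ} {n : ℕ}

/-- an initial segment of positions matched to an initial segment of values -/
theorem seg_eq (hgf : ∀ i, g (f i) = i) (hfg : ∀ i, f (g i) = i)
    (hlg : ∀ i, i < n → g i < n) {s v : ℕ} (hs : s ≤ n) (hv : v ≤ n)
    (h : ∀ i, i < n → (i < s ↔ f i < v)) : s = v := by
  apply le_antisymm
  · exact card_le_of f (fun x y hxy => inj_of hgf hxy) s v
      (fun i hi => (h i (by omega)).1 hi)
  · exact card_le_of g (fun x y hxy => by
      have := congrArg f hxy
      rwa [hfg, hfg] at this) v s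
      (fun i hi => (h (g i) (hlg i (by omega))).2 (by rw [hfg]; exact hi))

/-- the indecomposable case: only rotations remain -/
theorem case_indec (hn : 2 ≤ n) (hgf : ∀ i, g (f i) = i) (hfg : ∀ i, f (g i) = i)
    (hlt : ∀ i, i < n → f i < n) (hlg : ∀ i, i < n → g i < n)
    (h3 : A3 f n) (h4 : A4 f n)
    (h3' : A3 (fun i => f (f i)) n) (h4' : A4 (fun i => f (f i)) n)
    (hnb : ∀ m, 1 ≤ m → m < n → ∃ i < m, m ≤ f i) :
    ∃ k, 1 ≤ k ∧ k < n ∧ ∀ i < n, f i = if i + k < n then i + k else i + k - n := by
  have hne : ∀ i j, i ≠ j → f i ≠ f j := fun i j hij h => hij (inj_of hgf h)
  obtain ⟨a, ha⟩ : ∃ a, g 0 = a := ⟨_, rfl⟩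
  obtain ⟨b, hb⟩ : ∃ b, f 0 = b := ⟨_, rfl⟩
  have hfa : f a = 0 := by rw [← ha]; exact hfg 0
  have hb1 : 1 ≤ b := by
    obtain ⟨i, hi, hi2⟩ := hnb 1 le_rfl (by omega)
    have : i = 0 := by omega
    rw [this, hb] at hi2
    exact hi2
  have ha1 : 1 ≤ a := by
    rcases Nat.eq_zero_or_pos a with h | h
    · rw [h, hb] at hfa; omega
    · exact h
  have han : a < n := by rw [← ha]; exact hlg 0 (by omega)
  have hbn : b < n := by rw [← hb]; exact hlt 0 (by omega)
  -- the part before `a` is increasing
  have hpre : ∀ i j, i < j → j < a → f i < f j := by
    intro i j hij hja
    rcases lt_trichotomy (f i) (f j) with h | h | h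
    · exact h
    · exact absurd h (hne i j (by omega))
    · have h5 := hne j a (by omega)
      exact (h3 i j a hij hja han (by omega) h).elim
  obtain ⟨c, hc⟩ : ∃ c, f (a - 1) = c := ⟨_, rfl⟩
  have hcn : c < n := by rw [← hc]; exact hlt _ (by omega)
  have hpre_le : ∀ i, i < a → f i ≤ c := by
    intro i hi
    rcases Nat.lt_or_ge i (a - 1) with h | h
    · have := hpre i (a - 1) h (by omega)
      omega
    · have : i = a - 1 := by omega
      rw [this, hc]
  have hpre_ge : ∀ i, i < a → b + i ≤ f i := by
    intro i
    induction i with
    | zero => intro _; omega
    | succ i ih =>
      intro hi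
      have h1 := ih (by omega)
      have h2 := hpre i (i + 1) (by omega) hi
      omega
  have hbc : b + (a - 1) ≤ c := by rw [← hc]; exact hpre_ge _ (by omega)
  -- small values in the suffix are increasing
  have hsm : ∀ i j, a ≤ i → i < j → j < n → f i < c → f j < c → f i < f j := by
    intro i j hai hij hjn hic hjc
    rcases lt_trichotomy (f i) (f j) with h | h | h
    · exact h
    · exact absurd h (hne i j (by omega))
    · exact (h3 (a - 1) i j (by omega) hij hjn h (by omega)).elim
  -- two large values before a small one are impossible
  have hlarge : ∀ i j k, a ≤ i → i < j → j < k → k < n → c < f i → c < f j → f k < c → False := by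
    intro i j k hai hij hjk hkn hi hj hk
    have hia : i ≠ a := by
      intro h
      rw [h, hfa] at hi
      omega
    rcases lt_trichotomy (f i) (f j) with h | h | h
    · have h5 := hne k a (by omega)
      exact h4 a i j k (by omega) hij hjk hkn (by omega) (by omega) h
    · exact absurd h (hne i j (by omega))
    · exact h3 i j k hij hjk hkn (by omega) h
  -- the last position with a value below `c`
  obtain ⟨t, hat, htn, htc, hlast⟩ : ∃ t, a ≤ t ∧ t < n ∧ f t < c ∧ ∀ i, t < i → i < n → c < f i := by
    have hex : ∃ d, d < n ∧ f (n - 1 - d) < c := ⟨n - 1 - a, by omega, by
      rw [show n - 1 - (n - 1 - a) = a by omega, hfa]; omega⟩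
    classical
    have hspec := Nat.find_spec hex
    have hmin : ∀ d, d < Nat.find hex → ¬ (d < n ∧ f (n - 1 - d) < c) := fun d hd => Nat.find_min hex hd
    have hle : Nat.find hex ≤ n - 1 - a := Nat.find_min' hex ⟨by omega, by
      rw [show n - 1 - (n - 1 - a) = a by omega, hfa]; omega⟩
    refine ⟨n - 1 - Nat.find hex, by omega, by omega, hspec.2, ?_⟩
    intro i hi hin
    have h5 := hmin (n - 1 - i) (by omega)
    rw [show n - 1 - (n - 1 - i) = i by omega] at h5
    have h6 : f i ≠ c := by rw [← hc]; exact hne i (a - 1) (by omega)
    have h7 : ¬ f i < c := fun h => h5 ⟨by omega, h⟩
    omega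
  have hsuf_ne : ∀ i, a ≤ i → f i ≠ c := by
    intro i hi
    rw [← hc]
    exact hne i (a - 1) (by omega)
  by_cases hL : ∃ p, a ≤ p ∧ p ≤ t ∧ c < f p
  · -- exactly one large value
    obtain ⟨p, hap, hpt, hpc⟩ := hL
    have hpa : a < p := by
      rcases lt_or_eq_of_le hap with h | h
      · exact h
      · rw [← h, hfa] at hpc; omega
    have hpt' : p < t := by
      rcases lt_or_eq_of_le hpt with h | h
      · exact h
      · rw [h] at hpc; omega
    have honly : ∀ i, a ≤ i → i ≤ t → i ≠ p → f i < c := by
      intro i hai hit hip
      have h6 := hsuf_ne i hai
      by_contra hcon
      have h7 : c < f i := by omega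
      have hit' : i < t := by
        rcases lt_or_eq_of_le hit with h | h
        · exact h
        · rw [h] at h7; omega
      rcases Nat.lt_or_gt_of_ne hip with h | h
      · exact hlarge i p t hai h hpt' htn h7 hpc htc
      · exact hlarge p i t hap h hit' htn hpc h7 htc
    have hfpn : f p < n := hlt p (by omega)
    -- the large value is `n - 1`
    have hfp : f p = n - 1 := by
      by_contra hcon
      have hex : ∃ s, s < n ∧ f p < f s := ⟨g (n - 1), hlg _ (by omega), by rw [hfg]; omega⟩
      classical
      have hspec := Nat.find_spec hex
      obtain ⟨s, hs⟩ : ∃ s, Nat.find hex = s := ⟨_, rfl⟩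
      rw [hs] at hspec
      have hmin : ∀ i, i < s → ¬ (i < n ∧ f p < f i) := fun i hi =>
        Nat.find_min hex (by rw [hs]; exact hi)
      have hts : t < s := by
        by_contra hst
        have hst' : s ≤ t := by omega
        rcases Nat.lt_or_ge s a with h | h
        · have := hpre_le s h
          omega
        · by_cases hsp : s = p
          · rw [hsp] at hspec; omega
          · have := honly s h hst' hsp
            omega
      have hiff : ∀ i, i < n → (i < s ↔ f i < f p + 1) := by
        intro i hi
        constructor
        · intro h
          have := hmin i h
          have h8 : ¬ f p < f i := fun h9 => this ⟨hi, h9⟩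
          omega
        · intro h
          by_contra hcon2
          rcases lt_or_eq_of_le (show s ≤ i by omega) with h9 | h9
          · have h10 := hlast i (by omega) hi
            have h11 := hne i p (by omega)
            exact h4 a p s i hpa (by omega) h9 hi (by omega) (by omega) hspec.2
          · rw [← h9] at h
            omega
      have hsv := seg_eq hgf hfg hlg (s := s) (v := f p + 1) (by omega) (by omega) hiff
      obtain ⟨i, hi, hi2⟩ := hnb s (by omega) hspec.1
      have := (hiff i (by omega)).1 hi
      omega
    have hcn1 : c < n - 1 := by omega
    -- `f t < b`
    have hftb : f t < b := by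
      by_contra hcon
      have h6 : f t ≠ b := by rw [← hb]; exact hne t 0 (by omega)
      have h7 : 0 ≠ a - 1 := by
        intro h
        rw [← h, hb] at hc
        omega
      exact h4 0 (a - 1) p t (by omega) (by omega) hpt' htn (by omega) (by omega) (by omega)
    have hsmall : ∀ i, a ≤ i → i < n → f i < c → f i < b := by
      intro i hai hin hic
      have hit : i ≤ t := by
        by_contra hcon
        have := hlast i (by omega) hin
        omega
      rcases lt_or_eq_of_le hit with h | h
      · have := hsm i t hai h htn hic htc
        omega
      · rw [h]; exact hftb
    have hbpre : ∀ x, b ≤ x → x ≤ c → g x < a := by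
      intro x hx hxc
      by_contra hcon
      have h6 : g x < n := hlg x (by omega)
      have h7 := hsuf_ne (g x) (by omega)
      rw [hfg] at h7
      have := hsmall (g x) (by omega) h6 (by rw [hfg]; omega)
      rw [hfg] at this
      omega
    have hnotpre : ∀ x, x < b → a ≤ g x := by
      intro x hx
      by_contra hcon
      have := hpre_ge (g x) (by omega)
      rw [hfg] at this
      omega
    -- the prefix
    have hF1 : ∀ i, i < a → f i = b + i := by
      intro i
      induction i with
      | zero => intro _; omega
      | succ i ih =>
        intro hi
        have h1 := ih (by omega)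
        have h2 := hpre i (i + 1) (by omega) hi
        have h3x := hpre_le (i + 1) hi
        by_contra hcon
        have h5 := hbpre (b + (i + 1)) (by omega) (by omega)
        have h6 := hfg (b + (i + 1))
        rcases lt_trichotomy (g (b + (i + 1))) (i + 1) with h | h | h
        · rcases lt_or_eq_of_le (show g (b + (i + 1)) ≤ i by omega) with h7 | h7
          · have := hpre _ _ h7 (by omega)
            omega
          · rw [h7] at h6
            omega
        · rw [h] at h6
          omega
        · have := hpre _ _ h h5
          omega
    have hceq : c = b + (a - 1) := by rw [← hc]; exact hF1 _ (by omega)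
    -- the suffix before `p`
    have hpos_small : ∀ x, x < b → a ≤ g x ∧ g x ≤ t ∧ g x ≠ p := by
      intro x hx
      refine ⟨hnotpre x hx, ?_, ?_⟩
      · by_contra hcon
        have := hlast (g x) (by omega) (hlg x (by omega))
        rw [hfg] at this
        omega
      · intro h
        have h6 := hfg x
        rw [h, hfp] at h6
        omega
    have hsm' : ∀ i j, a ≤ i → i < j → j ≤ t → i ≠ p → j ≠ p → f i < f j := by
      intro i j hai hij hjt hip hjp
      exact hsm i j hai hij (by omega) (honly i hai (by omega) hip) (honly j (by omega) hjt hjp)
    have hF2 : ∀ d, a + d < p → f (a + d) = d := by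
      intro d
      induction d with
      | zero => intro _; exact hfa
      | succ d ih =>
        intro hd
        have h1 := ih (by omega)
        have h2 := hsm' (a + d) (a + (d + 1)) (by omega) (by omega) (by omega) (by omega) (by omega)
        have h5 := hsmall (a + (d + 1)) (by omega) (by omega) (honly _ (by omega) (by omega) (by omega))
        by_contra hcon
        obtain ⟨h6, h7, h8⟩ := hpos_small (d + 1) (by omega)
        have h9 := hfg (d + 1)
        rcases lt_trichotomy (g (d + 1)) (a + (d + 1)) with h | h | h
        · rcases lt_or_eq_of_le (show g (d + 1) ≤ a + d by omega) with h10 | h10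
          · have := hsm' _ _ h6 h10 (by omega) h8 (by omega)
            omega
          · rw [h10] at h9
            omega
        · rw [h] at h9
          omega
        · have := hsm' _ _ (by omega) h h7 (by omega) h8
          omega
    have hF2' : ∀ i, a ≤ i → i < p → f i = i - a := by
      intro i hai hip
      have := hF2 (i - a) (by omega)
      rwa [show a + (i - a) = i by omega] at this
    -- the first position behind `p`
    have hF4 : ∀ d, p + 1 + d ≤ t → f (p + 1 + d) = p - a + d := by
      intro d
      induction d with
      | zero =>
        intro hd
        have h1 := hF2' (p - 1) (by omega) (by omega)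
        have h2 := hsm' (p - 1) (p + 1) (by omega) (by omega) (by omega) (by omega) (by omega)
        have h5 := hsmall (p + 1) (by omega) (by omega) (honly _ (by omega) (by omega) (by omega))
        by_contra hcon
        rw [Nat.add_zero] at hcon
        obtain ⟨h6, h7, h8⟩ := hpos_small (p - a) (by omega)
        have h9 := hfg (p - a)
        rcases lt_trichotomy (g (p - a)) (p + 1) with h | h | h
        · rcases lt_or_eq_of_le (show g (p - a) ≤ p - 1 by omega) with h10 | h10
          · have := hsm' _ _ h6 h10 (by omega) h8 (by omega)
            omega
          · rw [h10] at h9
            omega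
        · rw [h] at h9
          omega
        · have := hsm' _ _ (by omega) h h7 (by omega) h8
          omega
      | succ d ih =>
        intro hd
        have h1 := ih (by omega)
        have h2 := hsm' (p + 1 + d) (p + 1 + (d + 1)) (by omega) (by omega) (by omega) (by omega) (by omega)
        have h5 := hsmall (p + 1 + (d + 1)) (by omega) (by omega) (honly _ (by omega) (by omega) (by omega))
        by_contra hcon
        obtain ⟨h6, h7, h8⟩ := hpos_small (p - a + (d + 1)) (by omega)
        have h9 := hfg (p - a + (d + 1))
        rcases lt_trichotomy (g (p - a + (d + 1))) (p + 1 + (d + 1)) with h | h | h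
        · rcases lt_or_eq_of_le (show g (p - a + (d + 1)) ≤ p + 1 + d by omega) with h10 | h10
          · have := hsm' _ _ h6 h10 (by omega) h8 (by omega)
            omega
          · rw [h10] at h9
            omega
        · rw [h] at h9
          omega
        · have := hsm' _ _ (by omega) h h7 (by omega) h8
          omega
    have hF4' : ∀ i, p < i → i ≤ t → f i = i - a - 1 := by
      intro i hpi hit
      have := hF4 (i - (p + 1)) (by omega)
      rw [show p + 1 + (i - (p + 1)) = i by omega] at this
      omega
    -- `f t = b - 1`
    have hft : f t = b - 1 := by
      obtain ⟨h6, h7, h8⟩ := hpos_small (b - 1) (by omega)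
      have h9 := hfg (b - 1)
      rcases lt_or_eq_of_le h7 with h10 | h10
      · have := hsm' _ _ h6 h10 le_rfl h8 (by omega)
        omega
      · rw [h10] at h9
        exact h9
    have htab : t = a + b := by
      have := hF4' t hpt' le_rfl
      omega
    -- behind `p` everything is increasing
    have hinc : ∀ j k, p < j → j < k → k < n → f j < f k := by
      intro j k hj hk hkn
      rcases lt_trichotomy (f j) (f k) with h | h | h
      · exact h
      · exact absurd h (hne j k (by omega))
      · have h5 := hne j p (by omega)
        have h6 := hlt j (by omega)
        exact (h3 p j k hj hk hkn h (by omega)).elim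
    exfalso
    rcases lt_or_eq_of_le (show t ≤ n - 1 by omega) with htn1 | htn1
    · -- `t < n - 1`
      obtain ⟨r, hr⟩ : ∃ r, g t = r := ⟨_, rfl⟩
      have hfr : f r = t := by rw [← hr]; exact hfg t
      have hrn : r < n := by rw [← hr]; exact hlg t (by omega)
      have hrt : t < r := by
        by_contra hcon
        rcases Nat.lt_or_ge r a with h | h
        · have := hpre_le r h
          omega
        · by_cases hrp : r = p
          · rw [hrp, hfp] at hfr; omega
          · have := honly r h (by omega) hrp
            omega
      have hfn1 : f (n - 1) = n - 2 := by
        have h6 := hfg (n - 2)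
        have h7 : g (n - 2) < n := hlg _ (by omega)
        have h8 : f (n - 1) < n := hlt _ (by omega)
        have h9 := hne (n - 1) p (by omega)
        have h10 : p < g (n - 2) := by
          by_contra hcon
          rcases Nat.lt_or_ge (g (n - 2)) a with h | h
          · have := hF1 _ h
            omega
          · by_cases hrp : g (n - 2) = p
            · rw [hrp, hfp] at h6; omega
            · have := hF2' _ h (by omega)
              omega
        rcases lt_or_eq_of_le (show g (n - 2) ≤ n - 1 by omega) with h | h
        · have := hinc _ _ h10 h (by omega)
          omega
        · rw [h] at h6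
          exact h6
      have e0 : f (f 0) = f b := by rw [hb]
      have ea : f (f a) = b := by rw [hfa, hb]
      have ep : f (f p) = n - 2 := by rw [hfp, hfn1]
      have er : f (f r) = b - 1 := by rw [hfr, hft]
      have n1 : f b ≠ b := by
        intro h
        have h5 : f (f 0) = f (f a) := by omega
        have := inj_of hgf (inj_of hgf h5)
        omega
      have n2 : f b ≠ b - 1 := by
        intro h
        have h5 : f (f 0) = f (f r) := by omega
        have := inj_of hgf (inj_of hgf h5)
        omega
      rcases Nat.lt_or_ge b (f b) with h | h
      · refine h3' 0 a r (by omega) (by omega) hrn ?_ ?_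
        · show f (f r) < f (f a)
          omega
        · show f (f a) < f (f 0)
          omega
      · refine h4' 0 a p r (by omega) hpa (by omega) hrn ?_ ?_ ?_
        · show f (f 0) < f (f r)
          omega
        · show f (f r) < f (f a)
          omega
        · show f (f a) < f (f p)
          omega
    · -- `t = n - 1`
      have ea : f (f a) = b := by rw [hfa, hb]
      have ep : f (f p) = b - 1 := by rw [hfp, ← htn1, hft]
      rcases Nat.lt_or_ge p b with h | h
      · have e1 : f (a + p) = p - 1 := by
          have := hF4' (a + p) (by omega) (by omega)
          omega
        have e2 : f (f (a + p)) = p - 1 - a := by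
          rw [e1]
          exact hF2' (p - 1) (by omega) (by omega)
        refine h3' a p (a + p) hpa (by omega) (by omega) ?_ ?_
        · show f (f (a + p)) < f (f p)
          omega
        · show f (f p) < f (f a)
          omega
      · have e1 : f (p - b) = p := by
          have := hF1 (p - b) (by omega)
          omega
        have e2 : f (f (p - b)) = n - 1 := by rw [e1, hfp]
        refine h3' (p - b) a p (by omega) hpa (by omega) ?_ ?_
        · show f (f p) < f (f a)
          omega
        · show f (f a) < f (f (p - b))
          omega
  · -- no large value
    have hall : ∀ i, a ≤ i → i ≤ t → f i < c := by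
      intro i hai hit
      have h6 := hsuf_ne i hai
      by_contra hcon
      exact hL ⟨i, hai, hit, by omega⟩
    have hiff : ∀ i, i < n → (i < t + 1 ↔ f i < c + 1) := by
      intro i hi
      constructor
      · intro h
        rcases Nat.lt_or_ge i a with h6 | h6
        · have := hpre_le i h6
          omega
        · have := hall i h6 (by omega)
          omega
      · intro h
        by_contra hcon
        have := hlast i (by omega) hi
        omega
    have htc1 := seg_eq hgf hfg hlg (s := t + 1) (v := c + 1) (by omega) (by omega) hiff
    have htn1 : t = n - 1 := by
      by_contra hcon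
      obtain ⟨i, hi, hi2⟩ := hnb (t + 1) (by omega) (by omega)
      have := (hiff i (by omega)).1 hi
      omega
    have hcn1 : c = n - 1 := by omega
    have hsuf : ∀ i j, a ≤ i → i < j → j < n → f i < f j := by
      intro i j hai hij hjn
      exact hsm i j hai hij hjn (hall i hai (by omega)) (hall j (by omega) (by omega))
    have hnotpre : ∀ x, x < b → a ≤ g x := by
      intro x hx
      by_contra hcon
      have := hpre_ge (g x) (by omega)
      rw [hfg] at this
      omega
    -- the small values in the suffix
    have hF2 : ∀ d, d < b → a + d < n → f (a + d) = d := by
      intro d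
      induction d with
      | zero => intro _ _; exact hfa
      | succ d ih =>
        intro hd hdn
        have h1 := ih (by omega) (by omega)
        have h2 := hsuf (a + d) (a + (d + 1)) (by omega) (by omega) (by omega)
        by_contra hcon
        have h6 := hnotpre (d + 1) (by omega)
        have h7 := hlg (d + 1) (by omega)
        have h9 := hfg (d + 1)
        rcases lt_trichotomy (g (d + 1)) (a + (d + 1)) with h | h | h
        · rcases lt_or_eq_of_le (show g (d + 1) ≤ a + d by omega) with h10 | h10
          · have := hsuf _ _ h6 h10 (by omega)
            omega
          · rw [h10] at h9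
            omega
        · rw [h] at h9
          omega
        · have := hsuf _ _ (by omega) h h7
          omega
    by_cases hR : ∀ x, b ≤ x → x < n → g x < a
    · -- rotation
      have hiff2 : ∀ i, i < n → (a ≤ i ↔ f i < b) := by
        intro i hi
        constructor
        · intro h
          by_contra hcon
          have := hR (f i) (by omega) (hlt i hi)
          rw [hgf] at this
          omega
        · intro h
          have := hnotpre (f i) h
          rwa [hgf] at this
      -- `a + b = n`
      have hab : a + b = n := by
        apply le_antisymm
        · omega
        · by_contra hcon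
          have h6 : a + b < n := by omega
          have h7 := (hiff2 (a + b) h6).1 (by omega)
          have h8 := hF2 (f (a + b)) h7 (by omega)
          have := inj_of hgf h8
          omega
      have hF1 : ∀ i, i < a → f i = b + i := by
        intro i
        induction i with
        | zero => intro _; omega
        | succ i ih =>
          intro hi
          have h1 := ih (by omega)
          have h2 := hpre i (i + 1) (by omega) hi
          have h3x := hpre_le (i + 1) hi
          by_contra hcon
          have h5 := hR (b + (i + 1)) (by omega) (by omega)
          have h6 := hfg (b + (i + 1))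
          rcases lt_trichotomy (g (b + (i + 1))) (i + 1) with h | h | h
          · rcases lt_or_eq_of_le (show g (b + (i + 1)) ≤ i by omega) with h7 | h7
            · have := hpre _ _ h7 (by omega)
              omega
            · rw [h7] at h6
              omega
          · rw [h] at h6
            omega
          · have := hpre _ _ h h5
            omega
      refine ⟨b, hb1, hbn, ?_⟩
      intro i hi
      split_ifs with h
      · rw [hF1 i (by omega)]
        omega
      · have := hF2 (i - a) (by omega) (by omega)
        rw [show a + (i - a) = i by omega] at this
        rw [this]
        omega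
    · exfalso
      push Not at hR
      obtain ⟨x, hbx, hxn, hxa⟩ := hR
      have hfx := hfg x
      have hxn' := hlg x hxn
      have hxb : x ≠ b := by
        intro h
        rw [h, ← hb] at hxa
        rw [hgf] at hxa
        omega
      have hM1 : x ≤ f (n - 1) := by
        rcases lt_or_eq_of_le (show g x ≤ n - 1 by omega) with h | h
        · have := hsuf _ _ hxa h (by omega)
          omega
        · rw [h] at hfx
          omega
      have hM2 : f (n - 1) < c := by
        have := hall (n - 1) (by omega) (by omega)
        exact this
      -- `f (n - 1) = n - 2`
      have hfn1 : f (n - 1) = n - 2 := by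
        by_contra hcon
        have h5 := hfg (n - 2)
        have h6 : g (n - 2) < a := by
          by_contra hcon2
          have h7 : g (n - 2) < n := hlg _ (by omega)
          rcases lt_or_eq_of_le (show g (n - 2) ≤ n - 1 by omega) with h | h
          · have := hsuf _ _ (by omega) h (by omega)
            omega
          · rw [h] at h5
            omega
        have h7 : g (n - 2) ≠ a - 1 := by
          intro h
          rw [h] at h5
          omega
        have h8 : g (n - 2) ≠ 0 := by
          intro h
          rw [h] at h5
          omega
        exact h4 0 (g (n - 2)) (a - 1) (n - 1) (by omega) (by omega) (by omega) (by omega) (by omega)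
          (by omega) (by omega)
      have hF1 : ∀ i, i + 1 < a → f i = b + i := by
        intro i
        induction i with
        | zero => intro _; omega
        | succ i ih =>
          intro hi
          have h1 := ih (by omega)
          have h2 := hpre i (i + 1) (by omega) (by omega)
          have h2' := hpre (i + 1) (a - 1) (by omega) (by omega)
          by_contra hcon
          have h6 := hfg (b + (i + 1))
          have h7 : g (b + (i + 1)) < n := hlg _ (by omega)
          rcases Nat.lt_or_ge (g (b + (i + 1))) a with h8 | h8
          · rcases lt_trichotomy (g (b + (i + 1))) (i + 1) with h | h | h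
            · rcases lt_or_eq_of_le (show g (b + (i + 1)) ≤ i by omega) with h7 | h7
              · have := hpre _ _ h7 (by omega)
                omega
              · rw [h7] at h6
                omega
            · rw [h] at h6
              omega
            · have := hpre _ _ h h8
              omega
          · exact h4 i (i + 1) (a - 1) (g (b + (i + 1))) (by omega) (by omega) (by omega) h7
              (by omega) (by omega) (by omega)
      -- positions
      have habn : a + b - 1 < n := by
        by_contra hcon
        -- then `b + (a-1) ≤ c = n - 1`
        omega
      have hu : f (a + b - 1) = b - 1 := by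
        have := hF2 (b - 1) (by omega) (by omega)
        rwa [show a + (b - 1) = a + b - 1 by omega] at this
      have hun : a + b - 1 ≠ n - 1 := by
        intro h
        rw [h, hfn1] at hu
        omega
      obtain ⟨r, hr⟩ : ∃ r, g (a + b - 1) = r := ⟨_, rfl⟩
      have hfr : f r = a + b - 1 := by rw [← hr]; exact hfg _
      have hrn : r < n := by rw [← hr]; exact hlg _ (by omega)
      have hra : a < r := by
        by_contra hcon
        rcases lt_or_eq_of_le (show r ≤ a by omega) with h | h
        · rcases lt_or_eq_of_le (show r ≤ a - 1 by omega) with h6 | h6
          · have := hF1 r (by omega)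
            omega
          · rw [h6, hc] at hfr
            omega
        · rw [h, hfa] at hfr
          omega
      refine h3' (a - 1) a r (by omega) hra hrn ?_ ?_
      · show f (f r) < f (f a)
        rw [hfr, hu, hfa, hb]
        omega
      · show f (f a) < f (f (a - 1))
        rw [hfa, hb, hc, hcn1, hfn1]
        omega

end

end Pool.Agent.H86.Sav
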